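import Pool.Agent.Helper13.TR.StB

/-!
# Module G1AG2A of project TR (MP_a45945_gt, owner helper13)

From small inductive dimension to cuts.
-/

set_option autoImplicit false

namespace Pool.Agent.Helper63.TR

open Set Topology Pool.Agent.Helper13.TR

/-- the frontier of an open set `V` as an intersection -/
private lemma inter_compl_eq {Y : Type} [TopologicalSpace Y] {V : Set Y} (hV : IsOpen V) :
    closure V ∩ Vᶜ = frontier V := by
  rw [hV.frontier_eq]
  rfl

/-- the first step: a small open set with compact closure -/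
private lemma small {Y : Type} [TopologicalSpace Y] [T2Space Y] [RegularSpace Y]
    [LocallyCompactSpace Y] {n : ℕ} (h : IndLT (n + 1) Y) {y : Y} {O : Set Y} (hO : IsOpen O)
    (hy : y ∈ O) :
    ∃ V : Set Y, IsOpen V ∧ y ∈ V ∧ closure V ⊆ O ∧ IsCompact (frontier V) ∧
      IndLT n ↥(frontier V) := by
  obtain ⟨V₀, hV₀, hyV₀, hcl, hcpt⟩ := exists_open_between_and_isCompact_closure
    (isCompact_singleton (x := y)) hO (singleton_subset_iff.2 hy)
  obtain ⟨V, hV, hyV, hVV₀, hind⟩ := h y V₀ hV₀ (hyV₀ (mem_singleton y))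
  refine ⟨V, hV, hyV, (closure_mono hVV₀).trans hcl, ?_, hind⟩
  exact hcpt.of_isClosed_subset isClosed_frontier
    (frontier_subset_closure.trans (closure_mono hVV₀))

theorem hG1A (hIND : StIND) : StG1A := by
  intro Y _ _ _ h2 y O hO hy
  have : T2Space Y := TopologicalSpace.t2Space_of_metrizableSpace
  obtain ⟨V, hV, hyV, hcl, hcpt, hind⟩ := small h2 hO hy
  refine ⟨closure V, Vᶜ, isClosed_closure, hV.isClosed_compl, ?_, hcl, fun h => h hyV, ?_⟩
  · rw [eq_univ_iff_forall]
    intro z
    by_cases hz : z ∈ V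
    · exact Or.inl (subset_closure hz)
    · exact Or.inr hz
  · rw [inter_compl_eq hV]
    exact hIND.2 Y (frontier V) hcpt hind

theorem hG2A (hIND : StIND) : StG2A := by
  intro Y _ _ _ h3 y O hO hy
  have : T2Space Y := TopologicalSpace.t2Space_of_metrizableSpace
  obtain ⟨V, hV, hyV, hcl, hcpt, hind⟩ := small h3 hO hy
  refine ⟨closure V, Vᶜ, isClosed_closure, hV.isClosed_compl, ?_, hcl, fun h => h hyV, ?_⟩
  · rw [eq_univ_iff_forall]
    intro z
    by_cases hz : z ∈ V
    · exact Or.inl (subset_closure hz)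
    · exact Or.inr hz
  · rw [inter_compl_eq hV]
    set K : Set Y := frontier V with hK
    have hKcl : IsClosed K := hcpt.isClosed
    refine Z1.base K hcpt ?_
    intro z hz O' hO' hzO'
    have : CompactSpace ↥K := isCompact_iff_compactSpace.1 hcpt
    have hO'' : IsOpen ((Subtype.val : ↥K → Y) ⁻¹' O') := hO'.preimage continuous_subtype_val
    obtain ⟨W, hW, hzW, hWcl, hWcpt, hWind⟩ :=
      small (Y := ↥K) hind (y := ⟨z, hz⟩) hO'' hzO'
    have hemb : IsClosedEmbedding (Subtype.val : ↥K → Y) := hKcl.isClosedEmbedding_subtypeVal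
    have hZ0 : Z0 (frontier W) := hIND.2 ↥K (frontier W) hWcpt hWind
    refine ⟨Subtype.val '' closure W, Subtype.val '' Wᶜ, hemb.isClosedMap _ isClosed_closure,
      hemb.isClosedMap _ hW.isClosed_compl, ?_, ?_, ?_, ?_⟩
    · rw [← image_union]
      have : closure W ∪ Wᶜ = univ := by
        rw [eq_univ_iff_forall]
        intro w
        by_cases hw : w ∈ W
        · exact Or.inl (subset_closure hw)
        · exact Or.inr hw
      rw [this, image_univ, Subtype.range_val]
    · rintro _ ⟨w, hw, rfl⟩
      exact hWcl hw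
    · rintro ⟨w, hw, hwz⟩
      apply hw
      have : w = ⟨z, hz⟩ := Subtype.ext hwz
      rw [this]
      exact hzW
    · rw [← image_inter Subtype.val_injective, inter_compl_eq hW]
      exact ⟨hZ0.1.image continuous_subtype_val,
        (IsEmbedding.subtypeVal.isTotallyDisconnected_image).2 hZ0.2⟩

end Pool.Agent.Helper63.TR
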